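import Pool.Agent.Lib_helper90.PNT.Tauber

/-!
# The Wiener-Ikehara theorem (with a Chebyshev bound), and the prime number theorem
(also in arithmetic progressions)
-/

set_option autoImplicit false

open MeasureTheory Set Filter Topology Complex

namespace Pool.Agent.Lib_helper90.PNT

/-- partial sums -/
noncomputable def psum (f : ℕ → ℝ) (x : ℝ) : ℝ := ∑ k ∈ Finset.Icc 1 ⌊x⌋₊, f k

section

variable {f : ℕ → ℝ} {C A : ℝ} {F : ℂ → ℂ}

lemma psum_mono (hf : ∀ n, 0 ≤ f n) : Monotone (psum f) := by
  intro x y hxy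
  unfold psum
  apply Finset.sum_le_sum_of_subset_of_nonneg
  · exact Finset.Icc_subset_Icc_right (Nat.floor_mono hxy)
  · intro k _ _; exact hf k

lemma psum_nonneg (hf : ∀ n, 0 ≤ f n) (x : ℝ) : 0 ≤ psum f x :=
  Finset.sum_nonneg fun k _ => hf k

lemma wi_transf (hf : ∀ n, 0 ≤ f n) (hC : ∀ n : ℕ, ∑ k ∈ Finset.Icc 1 n, f k ≤ C * n)
    (hF : ∀ s : ℂ, 1 < s.re → F s = LSeries (fun n => (f n : ℂ)) s - A / (s - 1))
    (z : ℂ) (hz : 0 < z.re) :
    ∫ u in Ioi (0:ℝ), ((psum f (Real.exp u) * Real.exp (-u) - A : ℝ) : ℂ) * cexp (-(z * u)) =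
      (F (z + 1) - A) / (z + 1) := by
  have hO : (fun n : ℕ => ∑ k ∈ Finset.Icc 1 n, f k) =O[atTop] fun n : ℕ => (n : ℝ) ^ (1:ℝ) := by
    apply Asymptotics.IsBigO.of_bound C
    refine Eventually.of_forall fun n => ?_
    rw [Real.rpow_one, Real.norm_eq_abs, abs_of_nonneg (Finset.sum_nonneg fun k _ => hf k),
      Real.norm_eq_abs, abs_of_nonneg (Nat.cast_nonneg n)]
    exact hC n
  have hre : 1 < (z + 1).re := by simp [hz]
  have hz1 : z + 1 ≠ 0 := by
    intro h
    have := congrArg Complex.re h
    simp at this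
    linarith
  have hz0 : z ≠ 0 := by
    intro h
    rw [h] at hz
    simp at hz
  have h1 := LSeries_eq_mul_integral_of_nonneg f (r := 1) (by norm_num) hre hO hf
  -- change of variables
  have h2 : ∫ t in Ioi (1:ℝ), (∑ k ∈ Finset.Icc 1 ⌊t⌋₊, (f k : ℂ)) * (t : ℂ) ^ (-(z + 1 + 1)) =
      ∫ u in Ioi (0:ℝ), ((psum f (Real.exp u) * Real.exp (-u) : ℝ) : ℂ) * cexp (-(z * u)) := by
    have h3 := integral_comp_exp_Ioi
      (fun t : ℝ => (∑ k ∈ Finset.Icc 1 ⌊t⌋₊, (f k : ℂ)) * (t : ℂ) ^ (-(z + 1 + 1))) 0
    rw [Real.exp_zero] at h3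
    rw [← h3]
    apply setIntegral_congr_fun measurableSet_Ioi
    intro u _
    simp only
    have h4 : ((Real.exp u : ℝ) : ℂ) ^ (-(z + 1 + 1)) = cexp (-(z * u)) * cexp (-(2 * u)) := by
      rw [Complex.cpow_def_of_ne_zero (by exact_mod_cast (Real.exp_pos u).ne'),
        ← Complex.ofReal_log (Real.exp_pos u).le, Real.log_exp, ← Complex.exp_add]
      congr 1
      ring
    have h5 : ((∑ k ∈ Finset.Icc 1 ⌊Real.exp u⌋₊, (f k : ℂ))) = ((psum f (Real.exp u) : ℝ) : ℂ) := by
      unfold psum; push_cast; rfl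
    have h6 : ((Real.exp u : ℝ) : ℂ) * cexp (-(2 * u)) = ((Real.exp (-u) : ℝ) : ℂ) := by
      rw [Complex.ofReal_exp, Complex.ofReal_exp, ← Complex.exp_add]
      congr 1
      push_cast
      ring
    rw [h4, h5, Complex.real_smul]
    push_cast [← h6]
    ring
  have hintB : Integrable (fun u : ℝ => ((psum f (Real.exp u) * Real.exp (-u) : ℝ) : ℂ) *
      cexp (-(z * u))) (volume.restrict (Ioi (0:ℝ))) := by
    have hb : Integrable (fun u : ℝ => C * Real.exp (-(z.re * u))) (volume.restrict (Ioi (0:ℝ))) := by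
      apply Integrable.const_mul
      have := integrableOn_exp_mul_Ioi (a := -z.re) (by linarith) 0
      refine this.congr_fun (fun u _ => ?_) measurableSet_Ioi
      simp
    refine hb.mono' ?_ ?_
    · apply Measurable.aestronglyMeasurable
      apply Measurable.mul
      · apply Complex.measurable_ofReal.comp
        exact ((psum_mono hf).measurable.comp Real.measurable_exp).mul (by fun_prop)
      · fun_prop
    · refine Eventually.of_forall fun u => ?_
      rw [norm_mul, Complex.norm_real, Complex.norm_exp, Real.norm_eq_abs,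
        abs_of_nonneg (mul_nonneg (psum_nonneg hf _) (Real.exp_pos _).le)]
      have h7 : (-(z * (u:ℂ))).re = -(z.re * u) := by simp
      rw [h7]
      apply mul_le_mul_of_nonneg_right _ (Real.exp_pos _).le
      have hC0 : 0 ≤ C := by
        have := hC 1
        simp at this
        exact (hf 1).trans this
      have h8 : psum f (Real.exp u) ≤ C * Real.exp u := by
        refine (hC _).trans ?_
        apply mul_le_mul_of_nonneg_left _ hC0
        exact Nat.floor_le (Real.exp_pos u).le
      calc psum f (Real.exp u) * Real.exp (-u) ≤ C * Real.exp u * Real.exp (-u) :=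
            mul_le_mul_of_nonneg_right h8 (Real.exp_pos _).le
        _ = C := by rw [mul_assoc, ← Real.exp_add]; simp
  have hintE : Integrable (fun u : ℝ => (A : ℂ) * cexp (-(z * u))) (volume.restrict (Ioi (0:ℝ))) := by
    apply Integrable.const_mul
    have := integrableOn_exp_mul_complex_Ioi (a := -z) (by simpa using hz) 0
    refine this.congr_fun (fun u _ => ?_) measurableSet_Ioi
    simp
  have h9 : ∫ u in Ioi (0:ℝ), (A : ℂ) * cexp (-(z * u)) = A / z := by
    rw [integral_const_mul]
    have := integral_exp_mul_complex_Ioi (a := -z) (by simpa using hz) 0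
    have h10 : ∫ u in Ioi (0:ℝ), cexp (-(z * u)) = ∫ u in Ioi (0:ℝ), cexp (-z * u) := by
      congr 1; funext u; congr 1; ring
    rw [h10, this]
    simp
    rfl
  have h11 : ∫ u in Ioi (0:ℝ), ((psum f (Real.exp u) * Real.exp (-u) - A : ℝ) : ℂ) *
      cexp (-(z * u)) = (∫ u in Ioi (0:ℝ), ((psum f (Real.exp u) * Real.exp (-u) : ℝ) : ℂ) *
      cexp (-(z * u))) - A / z := by
    rw [← h9, ← integral_sub hintB hintE]
    congr 1
    funext u
    push_cast
    ring
  rw [h11, ← h2, hF (z + 1) hre, h1]
  have e1 : z + 1 - 1 = z := by ring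
  rw [e1]
  field_simp
  ring

/-- The Wiener-Ikehara theorem for nonnegative coefficients satisfying a Chebyshev bound. -/
theorem wiener_ikehara (hf : ∀ n, 0 ≤ f n)
    (hC : ∀ n : ℕ, ∑ k ∈ Finset.Icc 1 n, f k ≤ C * n)
    (hFc : ContinuousOn F {s | 1 ≤ s.re})
    (hF : ∀ s : ℂ, 1 < s.re → F s = LSeries (fun n => (f n : ℂ)) s - A / (s - 1)) :
    Tendsto (fun x : ℝ => (∑ k ∈ Finset.Icc 1 ⌊x⌋₊, f k) / x) atTop (𝓝 A) := by
  have hC0 : 0 ≤ C := by
    have := hC 1
    simp at this
    exact (hf 1).trans this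
  have hT : TauberData (fun u => psum f (Real.exp u) * Real.exp (-u)) C A
      (fun z => (F (z + 1) - A) / (z + 1)) := by
    refine ⟨?_, ?_, ?_, ?_, ?_⟩
    · exact ((psum_mono hf).measurable.comp Real.measurable_exp).mul (by fun_prop)
    · intro u
      exact mul_nonneg (psum_nonneg hf _) (Real.exp_pos _).le
    · intro u _
      have h8 : psum f (Real.exp u) ≤ C * Real.exp u := by
        refine (hC _).trans ?_
        apply mul_le_mul_of_nonneg_left _ hC0
        exact Nat.floor_le (Real.exp_pos u).le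
      calc psum f (Real.exp u) * Real.exp (-u) ≤ C * Real.exp u * Real.exp (-u) :=
            mul_le_mul_of_nonneg_right h8 (Real.exp_pos _).le
        _ = C := by rw [mul_assoc, ← Real.exp_add]; simp
    · apply ContinuousOn.div
      · apply ContinuousOn.sub _ continuousOn_const
        apply hFc.comp (by fun_prop)
        intro z hz
        have : (0:ℝ) ≤ z.re := hz
        show (1:ℝ) ≤ (z + 1).re
        simp [this]
      · fun_prop
      · intro z hz h
        have hz' : (0:ℝ) ≤ z.re := hz
        have := congrArg Complex.re h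
        simp at this
        linarith
    · exact fun z hz => wi_transf hf hC hF z hz
  have hslow : ∀ u v : ℝ, 0 ≤ u → u ≤ v → psum f (Real.exp u) * Real.exp (-u) *
      Real.exp (-(v - u)) ≤ psum f (Real.exp v) * Real.exp (-v) := by
    intro u v _ huv
    have h1 : psum f (Real.exp u) * Real.exp (-u) * Real.exp (-(v - u)) =
        psum f (Real.exp u) * Real.exp (-v) := by
      rw [mul_assoc, ← Real.exp_add]
      congr 2
      ring
    rw [h1]
    exact mul_le_mul_of_nonneg_right (psum_mono hf (Real.exp_le_exp.2 huv)) (Real.exp_pos _).le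
  have h := hT.tendsto hslow
  have h2 := h.comp Real.tendsto_log_atTop
  refine h2.congr' ?_
  filter_upwards [eventually_gt_atTop 0] with x hx
  simp only [Function.comp_apply]
  rw [Real.exp_log hx, Real.exp_neg, Real.exp_log hx]
  rfl

end

/-! ### The prime number theorem -/

open ArithmeticFunction in
lemma vonMangoldt_chebyshev : ∃ C : ℝ, ∀ n : ℕ, ∑ k ∈ Finset.Icc 1 n, vonMangoldt k ≤ C * n := by
  refine ⟨Real.log 4 + 4, fun n => ?_⟩
  have h := Chebyshev.psi_le_const_mul_self (x := (n:ℝ)) (Nat.cast_nonneg n)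
  rw [Chebyshev.psi, Nat.floor_natCast] at h
  exact h

open ArithmeticFunction in
/-- The prime number theorem in arithmetic progressions, for the von Mangoldt function. -/
theorem pnt_residueClass {q : ℕ} [NeZero q] {a : ZMod q} (ha : IsUnit a) :
    Tendsto (fun x : ℝ => (∑ k ∈ Finset.Icc 1 ⌊x⌋₊, vonMangoldt.residueClass a k) / x) atTop
      (𝓝 ((q.totient : ℝ)⁻¹)) := by
  obtain ⟨C, hC⟩ := vonMangoldt_chebyshev
  apply wiener_ikehara (C := C) (F := vonMangoldt.LFunctionResidueClassAux a)
  · exact vonMangoldt.residueClass_nonneg a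
  · intro n
    refine le_trans (Finset.sum_le_sum fun k _ => vonMangoldt.residueClass_le a k) (hC n)
  · exact vonMangoldt.continuousOn_LFunctionResidueClassAux a
  · intro s hs
    rw [vonMangoldt.eqOn_LFunctionResidueClassAux ha hs]
    push_cast
    rfl

open ArithmeticFunction in
/-- The prime number theorem for `ψ`. -/
theorem tendsto_psi_div : Tendsto (fun x : ℝ => Chebyshev.psi x / x) atTop (𝓝 1) := by
  have h := pnt_residueClass (q := 1) (a := 1) isUnit_one
  have h1 : ∀ k, vonMangoldt.residueClass (1 : ZMod 1) k = vonMangoldt k := by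
    intro k
    unfold vonMangoldt.residueClass
    apply Set.indicator_of_mem
    show ((k : ZMod 1)) = 1
    exact Subsingleton.elim _ _
  simp only [h1, Nat.totient_one, Nat.cast_one, inv_one] at h
  exact h

/-- The prime number theorem for `θ`. -/
theorem tendsto_theta_div : Tendsto (fun x : ℝ => Chebyshev.theta x / x) atTop (𝓝 1) := by
  have h1 : Tendsto (fun x : ℝ => (Chebyshev.psi x - Chebyshev.theta x) / x) atTop (𝓝 0) := by
    obtain ⟨C, hC⟩ := Chebyshev.psi_sub_theta_le_mul_sqrt
    have h2 : Tendsto (fun x : ℝ => C * (Real.sqrt x)⁻¹) atTop (𝓝 0) := by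
      have := (tendsto_inv_atTop_zero.comp Real.tendsto_sqrt_atTop).const_mul C
      simpa using this
    apply squeeze_zero' _ _ h2
    · filter_upwards [eventually_gt_atTop 0] with x hx
      have := Chebyshev.theta_le_psi x
      apply div_nonneg (by linarith) hx.le
    · filter_upwards [eventually_gt_atTop 0] with x hx
      rw [div_le_iff₀ hx]
      refine (hC x).trans (le_of_eq ?_)
      have hs : Real.sqrt x * Real.sqrt x = x := Real.mul_self_sqrt hx.le
      have hs0 : Real.sqrt x ≠ 0 := (Real.sqrt_pos.2 hx).ne'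
      calc C * Real.sqrt x = C * (Real.sqrt x)⁻¹ * (Real.sqrt x * Real.sqrt x) := by
            field_simp
        _ = C * (Real.sqrt x)⁻¹ * x := by rw [hs]
  have h3 := tendsto_psi_div.sub h1
  rw [sub_zero] at h3
  refine h3.congr fun x => ?_
  ring

/-- The prime number theorem for `π`, real variable. -/
theorem tendsto_pi_mul_log_div :
    Tendsto (fun x : ℝ => (Nat.primeCounting ⌊x⌋₊ : ℝ) * Real.log x / x) atTop (𝓝 1) := by
  have h1 := Chebyshev.primeCounting_sub_theta_div_log_isBigO
  obtain ⟨C, hC⟩ := h1.bound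
  have h2 : Tendsto (fun x : ℝ => ((Nat.primeCounting ⌊x⌋₊ : ℝ) - Chebyshev.theta x / Real.log x) *
      Real.log x / x) atTop (𝓝 0) := by
    have h3 : Tendsto (fun x : ℝ => C * (Real.log x)⁻¹) atTop (𝓝 0) := by
      have := (tendsto_inv_atTop_zero.comp Real.tendsto_log_atTop).const_mul C
      simpa using this
    apply squeeze_zero_norm' _ h3
    filter_upwards [hC, eventually_gt_atTop 1] with x hx hx1
    have hlog : 0 < Real.log x := Real.log_pos hx1
    have hx0 : 0 < x := by linarith
    rw [norm_div, norm_mul, Real.norm_eq_abs x, abs_of_pos hx0, Real.norm_eq_abs (Real.log x),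
      abs_of_pos hlog, div_le_iff₀ hx0]
    rw [Real.norm_eq_abs (x / Real.log x ^ 2), abs_of_pos (by positivity)] at hx
    calc ‖(Nat.primeCounting ⌊x⌋₊ : ℝ) - Chebyshev.theta x / Real.log x‖ * Real.log x
        ≤ C * (x / Real.log x ^ 2) * Real.log x := mul_le_mul_of_nonneg_right hx hlog.le
      _ = C * (Real.log x)⁻¹ * x := by field_simp
  have h4 := h2.add tendsto_theta_div
  rw [zero_add] at h4
  refine h4.congr' ?_
  filter_upwards [eventually_gt_atTop 1] with x hx
  have hlog : Real.log x ≠ 0 := (Real.log_pos hx).ne'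
  have hx0 : x ≠ 0 := by linarith
  field_simp
  ring

/-- The prime number theorem. -/
theorem tendsto_primeCounting :
    Tendsto (fun n : ℕ => (Nat.primeCounting n : ℝ) * Real.log n / n) atTop (𝓝 1) := by
  have h := tendsto_pi_mul_log_div.comp tendsto_natCast_atTop_atTop
  refine h.congr fun n => ?_
  simp

end Pool.Agent.Lib_helper90.PNT
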