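import Mathlib

/-!
# The Fejér kernel
-/

set_option autoImplicit false

open MeasureTheory Set Filter Topology Complex

namespace Pool.Agent.Lib_helper90.PNT

/-- The Fejér kernel `2 (1 - cos (l v)) / (l v^2)` (with value `l` at `0`). -/
noncomputable def fej (l v : ℝ) : ℝ := if v = 0 then l else 2 * (1 - Real.cos (l * v)) / (l * v ^ 2)

lemma fej_nonneg {l : ℝ} (hl : 0 < l) (v : ℝ) : 0 ≤ fej l v := by
  unfold fej
  split_ifs with h
  · exact hl.le
  · have := Real.cos_le_one (l * v)
    have : 0 ≤ 1 - Real.cos (l * v) := by linarith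
    positivity

lemma fej_neg (l v : ℝ) : fej l (-v) = fej l v := by
  unfold fej
  simp

lemma one_sub_cos_le (x : ℝ) : 1 - Real.cos x ≤ x ^ 2 / 2 := by
  have := Real.one_sub_sq_div_two_le_cos (x := x)
  linarith

lemma fej_le {l : ℝ} (hl : 0 < l) (v : ℝ) : fej l v ≤ l := by
  unfold fej
  split_ifs with h
  · exact le_rfl
  · rw [div_le_iff₀ (by positivity)]
    have := one_sub_cos_le (l * v)
    nlinarith

lemma fej_le' {l : ℝ} (hl : 0 < l) {v : ℝ} (hv : v ≠ 0) : fej l v ≤ 4 / (l * v ^ 2) := by
  unfold fej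
  rw [if_neg hv]
  have := Real.neg_one_le_cos (l * v)
  gcongr
  linarith

lemma fej_scale {l : ℝ} (hl : 0 < l) (v : ℝ) : fej l v = l * fej 1 (l * v) := by
  unfold fej
  by_cases h : v = 0
  · simp [h]
  · have h2 : l * v ≠ 0 := mul_ne_zero hl.ne' h
    rw [if_neg h, if_neg h2]
    field_simp

lemma measurable_fej (l : ℝ) : Measurable (fej l) := by
  unfold fej
  apply Measurable.ite (measurableSet_singleton 0) measurable_const
  fun_prop

lemma integrable_fej_one : Integrable (fej 1) := by
  have hb : Integrable (fun v : ℝ => 8 * (1 + v ^ 2)⁻¹) := integrable_inv_one_add_sq.const_mul 8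
  refine hb.mono' (measurable_fej 1).aestronglyMeasurable (Eventually.of_forall fun v => ?_)
  rw [Real.norm_eq_abs, abs_of_nonneg (fej_nonneg one_pos v)]
  by_cases hv : |v| ≤ 1
  · have h1 := fej_le one_pos v
    have h2 : v ^ 2 ≤ 1 := by
      rw [← sq_abs]; exact pow_le_one₀ (abs_nonneg v) hv
    have h3 : (1:ℝ) ≤ 8 * (1 + v ^ 2)⁻¹ := by
      rw [← div_eq_mul_inv, le_div_iff₀ (by positivity)]
      linarith
    linarith
  · push Not at hv
    have hv0 : v ≠ 0 := by
      intro h; rw [h] at hv; simp at hv; linarith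
    have h1 := fej_le' one_pos hv0
    have h2 : 1 ≤ v ^ 2 := by
      rw [← sq_abs]; exact one_le_pow₀ hv.le
    refine h1.trans ?_
    rw [← div_eq_mul_inv, one_mul]
    rw [div_le_div_iff₀ (by positivity) (by positivity)]
    linarith

lemma integrable_fej {l : ℝ} (hl : 0 < l) : Integrable (fej l) := by
  have h : fej l = fun v => l * fej 1 (l * v) := funext fun v => fej_scale hl v
  rw [h]
  exact (integrable_fej_one.comp_mul_left' hl.ne').const_mul l

/-- total mass of the Fejér kernel -/
noncomputable def fejMass : ℝ := ∫ v, fej 1 v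

lemma integral_fej {l : ℝ} (hl : 0 < l) : ∫ v, fej l v = fejMass := by
  have h : fej l = fun v => l * fej 1 (l * v) := funext fun v => fej_scale hl v
  rw [h, integral_const_mul, Measure.integral_comp_mul_left (fun v => fej 1 v) l,
    abs_of_pos (inv_pos.2 hl), smul_eq_mul, ← mul_assoc, mul_inv_cancel₀ hl.ne', one_mul]
  rfl

lemma fejMass_pos : 0 < fejMass := by
  unfold fejMass
  rw [integral_pos_iff_support_of_nonneg (fun v => fej_nonneg one_pos v) integrable_fej_one]
  have hsub : Ioo (0:ℝ) 1 ⊆ Function.support (fej 1) := by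
    intro v hv
    rw [Function.mem_support]
    unfold fej
    rw [if_neg hv.1.ne']
    have hcos : Real.cos (1 * v) < 1 := by
      rw [one_mul]
      have := Real.cos_lt_cos_of_nonneg_of_le_pi_div_two (x := 0) (y := v) le_rfl
        (by have := Real.pi_gt_three; linarith [hv.2]) hv.1
      simpa using this
    have h1 : 0 < 1 - Real.cos (1 * v) := by linarith
    have h2 : 0 < v := hv.1
    positivity
  refine lt_of_lt_of_le ?_ (measure_mono hsub)
  simp

/-- mass of the Fejér kernel outside `[-a,a]` -/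
lemma tendsto_fej_tail {a : ℝ} (ha : 0 < a) :
    Tendsto (fun l : ℝ => ∫ v in (Icc (-a) a)ᶜ, fej l v) atTop (𝓝 0) := by
  have hbound : ∀ᶠ l : ℝ in atTop, ∫ v in (Icc (-a) a)ᶜ, fej l v ≤
      l⁻¹ * (4 * (1 + 1 / a ^ 2) * ∫ v : ℝ, (1 + v ^ 2)⁻¹) := by
    filter_upwards [eventually_gt_atTop 0] with l hl
    have h1 : ∫ v in (Icc (-a) a)ᶜ, fej l v ≤
        ∫ v in (Icc (-a) a)ᶜ, l⁻¹ * (4 * (1 + 1 / a ^ 2)) * (1 + v ^ 2)⁻¹ := by
      apply setIntegral_mono_on (integrable_fej hl).integrableOn
        ((integrable_inv_one_add_sq.const_mul _).integrableOn) measurableSet_Icc.compl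
      intro v hv
      have hv' : a < |v| := by
        by_contra hcon
        push Not at hcon
        exact hv (abs_le.1 hcon)
      have hv0 : v ≠ 0 := by
        intro h; rw [h] at hv'; simp at hv'; linarith
      refine (fej_le' hl hv0).trans ?_
      have h2 : a ^ 2 ≤ v ^ 2 := by
        rw [← sq_abs v]; exact pow_le_pow_left₀ ha.le hv'.le 2
      have h3 : 1 + v ^ 2 ≤ (1 + 1 / a ^ 2) * v ^ 2 := by
        have : 1 ≤ v ^ 2 / a ^ 2 := by rw [le_div_iff₀ (by positivity)]; linarith
        have e : (1 + 1 / a ^ 2) * v ^ 2 = v ^ 2 + v ^ 2 / a ^ 2 := by ring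
        linarith
      have hv2 : 0 < v ^ 2 := by positivity
      have e1 : l⁻¹ * (4 * (1 + 1 / a ^ 2)) * (1 + v ^ 2)⁻¹ =
          4 * (1 + 1 / a ^ 2) / (l * (1 + v ^ 2)) := by
        field_simp
      rw [e1, div_le_div_iff₀ (by positivity) (by positivity)]
      nlinarith
    refine h1.trans ?_
    rw [integral_const_mul, mul_assoc l⁻¹]
    have h4 : ∫ v in (Icc (-a) a)ᶜ, (1 + v ^ 2)⁻¹ ≤ ∫ v : ℝ, (1 + v ^ 2)⁻¹ :=
      setIntegral_le_integral integrable_inv_one_add_sq
        (Eventually.of_forall fun v => by positivity)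
    gcongr
  have hnn : ∀ᶠ l : ℝ in atTop, 0 ≤ ∫ v in (Icc (-a) a)ᶜ, fej l v := by
    filter_upwards [eventually_gt_atTop 0] with l hl
    exact integral_nonneg fun v => fej_nonneg hl v
  refine tendsto_of_tendsto_of_tendsto_of_le_of_le' tendsto_const_nhds ?_ hnn hbound
  have := tendsto_inv_atTop_zero.mul_const (4 * (1 + 1 / a ^ 2) * ∫ v : ℝ, (1 + v ^ 2)⁻¹)
  simpa using this

/-- The Fourier transform of the triangle function -/
lemma integral_tri {l : ℝ} (hl : 0 < l) (v : ℝ) :
    ∫ t in (-l)..l, ((1 - |t| / l : ℝ) : ℂ) * cexp (I * t * v) = (fej l v : ℂ) := by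
  have hcont : Continuous fun t : ℝ => ((1 - |t| / l : ℝ) : ℂ) * cexp (I * t * v) := by fun_prop
  rw [← intervalIntegral.integral_add_adjacent_intervals (hcont.intervalIntegrable (-l) 0)
    (hcont.intervalIntegrable 0 l)]
  have hlc : (l : ℂ) ≠ 0 := by exact_mod_cast hl.ne'
  by_cases hv : v = 0
  · subst hv
    have h1 : ∫ t in (-l)..0, ((1 - |t| / l : ℝ) : ℂ) * cexp (I * t * (0:ℝ)) =
        ∫ t in (-l)..0, ((1 + t / l : ℝ) : ℂ) := by
      apply intervalIntegral.integral_congr
      intro t ht
      rw [uIcc_of_le (by linarith)] at ht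
      simp [abs_of_nonpos ht.2, neg_div]
    have h2 : ∫ t in (0:ℝ)..l, ((1 - |t| / l : ℝ) : ℂ) * cexp (I * t * (0:ℝ)) =
        ∫ t in (0:ℝ)..l, ((1 - t / l : ℝ) : ℂ) := by
      apply intervalIntegral.integral_congr
      intro t ht
      rw [uIcc_of_le hl.le] at ht
      simp [abs_of_nonneg ht.1]
    rw [h1, h2, intervalIntegral.integral_ofReal, intervalIntegral.integral_ofReal]
    unfold fej
    rw [if_pos rfl]
    norm_cast
    rw [intervalIntegral.integral_add (by simp) (by apply Continuous.intervalIntegrable; fun_prop),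
      intervalIntegral.integral_sub (by simp) (by apply Continuous.intervalIntegrable; fun_prop)]
    simp only [intervalIntegral.integral_const, intervalIntegral.integral_div, integral_id]
    simp only [smul_eq_mul]
    field_simp
    ring
  · have hvc : (v : ℂ) ≠ 0 := by exact_mod_cast hv
    have hI : I * (v:ℂ) ≠ 0 := mul_ne_zero I_ne_zero hvc
    have hexp : ∀ t : ℝ, HasDerivAt (fun t : ℝ => cexp (I * t * v)) (cexp (I * t * v) * (I * v)) t := by
      intro t
      have h0 : HasDerivAt (fun t : ℝ => I * (t:ℂ) * v) (I * v) t := by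
        have := ((hasDerivAt_id t).ofReal_comp.const_mul I).mul_const (v:ℂ)
        simpa using this
      exact h0.cexp
    -- right half
    have h2 : ∫ t in (0:ℝ)..l, ((1 - |t| / l : ℝ) : ℂ) * cexp (I * t * v) =
        -(cexp (I * l * v) - 1) / (l * v ^ 2) - 1 / (I * v) := by
      have hd : ∀ t ∈ uIcc (0:ℝ) l, HasDerivAt
          (fun t : ℝ => (1 - (t:ℂ) / l) * cexp (I * t * v) / (I * v) +
            (1 / l) * cexp (I * t * v) / (I * v) ^ 2)
          ((1 - (t:ℂ) / l) * cexp (I * t * v)) t := by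
        intro t _
        have h3 : HasDerivAt (fun t : ℝ => (1 - (t:ℂ) / l)) (-(1 / (l:ℂ))) t := by
          have := ((hasDerivAt_id t).ofReal_comp.div_const (l:ℂ)).const_sub 1
          simpa using this
        have h4 := ((h3.mul (hexp t)).div_const (I * (v:ℂ))).add
          (((hexp t).const_mul (1 / (l:ℂ))).div_const ((I * (v:ℂ)) ^ 2))
        refine h4.congr_deriv ?_
        field_simp
        ring
      have hcongr : ∫ t in (0:ℝ)..l, ((1 - |t| / l : ℝ) : ℂ) * cexp (I * t * v) =
          ∫ t in (0:ℝ)..l, (1 - (t:ℂ) / l) * cexp (I * t * v) := by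
        apply intervalIntegral.integral_congr
        intro t ht
        rw [uIcc_of_le hl.le] at ht
        simp [abs_of_nonneg ht.1]
      rw [hcongr, intervalIntegral.integral_eq_sub_of_hasDerivAt hd
        (by apply Continuous.intervalIntegrable; fun_prop)]
      have hI2 : (I * (v:ℂ)) ^ 2 = -(v:ℂ) ^ 2 := by rw [mul_pow, I_sq]; ring
      rw [hI2]
      simp only [ofReal_zero, mul_zero, zero_mul, Complex.exp_zero, zero_div, sub_zero]
      field_simp
      ring
    have h1 : ∫ t in (-l)..0, ((1 - |t| / l : ℝ) : ℂ) * cexp (I * t * v) =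
        -(cexp (-(I * l * v)) - 1) / (l * v ^ 2) + 1 / (I * v) := by
      have hd : ∀ t ∈ uIcc (-l) 0, HasDerivAt
          (fun t : ℝ => (1 + (t:ℂ) / l) * cexp (I * t * v) / (I * v) -
            (1 / l) * cexp (I * t * v) / (I * v) ^ 2)
          ((1 + (t:ℂ) / l) * cexp (I * t * v)) t := by
        intro t _
        have h3 : HasDerivAt (fun t : ℝ => (1 + (t:ℂ) / l)) (1 / (l:ℂ)) t := by
          have := ((hasDerivAt_id t).ofReal_comp.div_const (l:ℂ)).const_add 1
          simpa using this
        have h4 := ((h3.mul (hexp t)).div_const (I * (v:ℂ))).sub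
          (((hexp t).const_mul (1 / (l:ℂ))).div_const ((I * (v:ℂ)) ^ 2))
        refine h4.congr_deriv ?_
        field_simp
        ring
      have hcongr : ∫ t in (-l)..0, ((1 - |t| / l : ℝ) : ℂ) * cexp (I * t * v) =
          ∫ t in (-l)..0, (1 + (t:ℂ) / l) * cexp (I * t * v) := by
        apply intervalIntegral.integral_congr
        intro t ht
        rw [uIcc_of_le (by linarith)] at ht
        simp [abs_of_nonpos ht.2, neg_div]
      rw [hcongr, intervalIntegral.integral_eq_sub_of_hasDerivAt hd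
        (by apply Continuous.intervalIntegrable; fun_prop)]
      have hI2 : (I * (v:ℂ)) ^ 2 = -(v:ℂ) ^ 2 := by rw [mul_pow, I_sq]; ring
      rw [hI2]
      have hneg : I * ((-l : ℝ) : ℂ) * v = -(I * l * v) := by push_cast; ring
      rw [hneg]
      simp only [ofReal_zero, mul_zero, zero_mul, Complex.exp_zero, zero_div, add_zero, ofReal_neg]
      field_simp
      ring
    rw [h1, h2]
    unfold fej
    rw [if_neg hv]
    push_cast
    have hcos : Complex.cos (l * v) = (cexp (I * l * v) + cexp (-(I * l * v))) / 2 := by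
      rw [Complex.cos]
      congr 2
      · congr 1; ring
      · congr 1; ring
    rw [hcos]
    field_simp
    ring

end Pool.Agent.Lib_helper90.PNT
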