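import Pool.Agent.Lib_helper90.PNT.Fejer

/-!
# A Wiener-Ikehara type theorem for bounded functions
-/

set_option autoImplicit false

open MeasureTheory Set Filter Topology Complex

namespace Pool.Agent.Lib_helper90.PNT

section

variable {B : ℝ → ℝ} {C A : ℝ} {D : ℂ → ℂ}

/-- Standing hypotheses: `B` is measurable, nonnegative and bounded on the half line, and
`D` is the Laplace transform of `B - A`, continuously extended to the closed half plane. -/
structure TauberData (B : ℝ → ℝ) (C A : ℝ) (D : ℂ → ℂ) : Prop where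
  meas : Measurable B
  nonneg : ∀ u, 0 ≤ B u
  bdd : ∀ u, 0 ≤ u → B u ≤ C
  cont : ContinuousOn D {z | 0 ≤ z.re}
  transf : ∀ z : ℂ, 0 < z.re → ∫ u in Ioi (0:ℝ), ((B u - A : ℝ) : ℂ) * cexp (-(z * u)) = D z

lemma TauberData.norm_le (h : TauberData B C A D) {u : ℝ} (hu : 0 ≤ u) :
    |B u - A| ≤ C + |A| := by
  have h1 := h.nonneg u
  have h2 := h.bdd u hu
  have h3 := neg_abs_le A
  have h4 := le_abs_self A
  rw [abs_le]
  constructor <;> linarith

lemma TauberData.integrable_exp (h : TauberData B C A D) {ε : ℝ} (hε : 0 < ε) :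
    Integrable (fun u : ℝ => ((B u - A) * Real.exp (-(ε * u)) : ℝ))
      (volume.restrict (Ioi (0:ℝ))) := by
  have h1 : Integrable (fun u : ℝ => (C + |A|) * Real.exp (-(ε * u)))
      (volume.restrict (Ioi (0:ℝ))) := by
    apply Integrable.const_mul
    have := integrableOn_exp_mul_Ioi (a := -ε) (by linarith) 0
    refine this.congr_fun (fun u _ => ?_) measurableSet_Ioi
    simp
  refine h1.mono' ?_ ?_
  · exact ((h.meas.sub_const A).mul (by fun_prop)).aestronglyMeasurable
  · refine (ae_restrict_iff' measurableSet_Ioi).2 (Eventually.of_forall fun u hu => ?_)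
    rw [norm_mul, Real.norm_eq_abs, Real.norm_eq_abs, abs_of_pos (Real.exp_pos _)]
    exact mul_le_mul_of_nonneg_right (h.norm_le (le_of_lt hu)) (Real.exp_pos _).le

/-- Step 1: Fubini. -/
lemma TauberData.fubini (h : TauberData B C A D) {ε l : ℝ} (hε : 0 < ε) (hl : 0 < l) (y : ℝ) :
    ∫ u in Ioi (0:ℝ), (((B u - A) * Real.exp (-(ε * u)) * fej l (y - u) : ℝ) : ℂ) =
      ∫ t in (-l)..l, ((1 - |t| / l : ℝ) : ℂ) * cexp (I * t * y) * D (ε + I * t) := by
  have hle : -l ≤ l := by linarith
  set g : ℝ → ℝ → ℂ := fun u t => (((B u - A) * Real.exp (-(ε * u)) : ℝ) : ℂ) *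
    (((1 - |t| / l : ℝ) : ℂ) * cexp (I * t * ((y - u : ℝ) : ℂ))) with hg
  have hint : Integrable (Function.uncurry g)
      ((volume.restrict (Ioi (0:ℝ))).prod (volume.restrict (Ioc (-l) l))) := by
    have h1 : Integrable (fun u : ℝ => (((B u - A) * Real.exp (-(ε * u)) : ℝ) : ℂ))
        (volume.restrict (Ioi (0:ℝ))) := (h.integrable_exp hε).ofReal
    have h2 : Integrable (fun t : ℝ => ((1 - |t| / l : ℝ) : ℂ)) (volume.restrict (Ioc (-l) l)) := by
      have : Continuous fun t : ℝ => ((1 - |t| / l : ℝ) : ℂ) := by fun_prop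
      exact (this.integrableOn_Icc).mono_set Ioc_subset_Icc_self
    have h3 := h1.mul_prod h2
    have h4 : Integrable (fun p : ℝ × ℝ => cexp (I * p.2 * ((y - p.1 : ℝ) : ℂ)) *
        ((((B p.1 - A) * Real.exp (-(ε * p.1)) : ℝ) : ℂ) * ((1 - |p.2| / l : ℝ) : ℂ)))
        ((volume.restrict (Ioi (0:ℝ))).prod (volume.restrict (Ioc (-l) l))) := by
      refine h3.bdd_mul (c := 1) ?_ ?_
      · apply Continuous.aestronglyMeasurable
        fun_prop
      · refine Eventually.of_forall fun p => ?_
        have : I * (p.2 : ℂ) * ((y - p.1 : ℝ) : ℂ) = ((p.2 * (y - p.1) : ℝ) : ℂ) * I := by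
          push_cast; ring
        rw [this, Complex.norm_exp_ofReal_mul_I]
    refine h4.congr (Eventually.of_forall fun p => ?_)
    simp only [hg, Function.uncurry]
    ring
  have hL : ∀ u : ℝ, (((B u - A) * Real.exp (-(ε * u)) * fej l (y - u) : ℝ) : ℂ) =
      ∫ t in Ioc (-l) l, g u t := by
    intro u
    rw [← intervalIntegral.integral_of_le hle, hg]
    simp only
    rw [intervalIntegral.integral_const_mul, integral_tri hl (y - u)]
    push_cast
    ring
  have hR : ∀ t : ℝ, ∫ u in Ioi (0:ℝ), g u t =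
      ((1 - |t| / l : ℝ) : ℂ) * cexp (I * t * y) * D (ε + I * t) := by
    intro t
    rw [← h.transf (ε + I * t) (by simpa using hε), ← integral_const_mul]
    apply integral_congr_ae
    refine Eventually.of_forall fun u => ?_
    simp only [hg]
    have : cexp (I * t * ((y - u : ℝ) : ℂ)) = cexp (I * t * y) * cexp (-(I * t * u)) := by
      rw [← Complex.exp_add]; congr 1; push_cast; ring
    rw [this]
    have h2 : cexp (-((ε + I * t) * u)) = ((Real.exp (-(ε * u)) : ℝ) : ℂ) * cexp (-(I * t * u)) := by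
      push_cast
      rw [← Complex.exp_add]; congr 1; ring
    rw [h2]
    push_cast
    ring
  simp_rw [hL]
  rw [integral_integral_swap hint, intervalIntegral.integral_of_le hle]
  apply integral_congr_ae
  exact Eventually.of_forall fun t => hR t

/-- bound for `D` on a compact set -/
lemma TauberData.bound (h : TauberData B C A D) (l : ℝ) :
    ∃ M : ℝ, ∀ ε t : ℝ, 0 ≤ ε → ε ≤ 1 → |t| ≤ l → ‖D (ε + I * t)‖ ≤ M := by
  have hK : IsCompact ((fun p : ℝ × ℝ => (p.1 : ℂ) + I * p.2) '' (Icc (0:ℝ) 1 ×ˢ Icc (-l) l)) := by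
    apply (isCompact_Icc.prod isCompact_Icc).image
    fun_prop
  have hsub : ((fun p : ℝ × ℝ => (p.1 : ℂ) + I * p.2) '' (Icc (0:ℝ) 1 ×ˢ Icc (-l) l)) ⊆
      {z : ℂ | 0 ≤ z.re} := by
    rintro _ ⟨p, hp, rfl⟩
    simpa using hp.1.1
  obtain ⟨M, hM⟩ := hK.exists_bound_of_continuousOn (h.cont.mono hsub)
  refine ⟨M, fun ε t h1 h2 h3 => hM _ ⟨(ε, t), ⟨⟨h1, h2⟩, ?_⟩, rfl⟩⟩
  exact abs_le.1 h3

/-- Step 2: let `ε` tend to `0`. -/
lemma TauberData.limit_eps (h : TauberData B C A D) {l : ℝ} (hl : 0 < l) (y : ℝ) :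
    ∫ u in Ioi (0:ℝ), (((B u - A) * fej l (y - u) : ℝ) : ℂ) =
      ∫ t in (-l)..l, ((1 - |t| / l : ℝ) : ℂ) * cexp (I * t * y) * D (I * t) := by
  have h1 : Tendsto (fun ε : ℝ => ∫ u in Ioi (0:ℝ),
      (((B u - A) * Real.exp (-(ε * u)) * fej l (y - u) : ℝ) : ℂ)) (𝓝[>] 0)
      (𝓝 (∫ u in Ioi (0:ℝ), (((B u - A) * fej l (y - u) : ℝ) : ℂ))) := by
    apply tendsto_integral_filter_of_dominated_convergence
      (fun u => (C + |A|) * fej l (y - u))
    · refine Eventually.of_forall fun ε => ?_
      apply Measurable.aestronglyMeasurable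
      apply Complex.measurable_ofReal.comp
      exact ((h.meas.sub_const A).mul (by fun_prop)).mul
        ((measurable_fej l).comp (measurable_const.sub measurable_id))
    · filter_upwards [self_mem_nhdsWithin] with ε hε
      refine (ae_restrict_iff' measurableSet_Ioi).2 (Eventually.of_forall fun u hu => ?_)
      have hu' : (0:ℝ) < u := hu
      have hε' : (0:ℝ) < ε := hε
      rw [Complex.norm_real, norm_mul, norm_mul, Real.norm_eq_abs, Real.norm_eq_abs,
        Real.norm_eq_abs, abs_of_pos (Real.exp_pos _), abs_of_nonneg (fej_nonneg hl _)]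
      apply mul_le_mul_of_nonneg_right _ (fej_nonneg hl _)
      have h2 : Real.exp (-(ε * u)) ≤ 1 := Real.exp_le_one_iff.2 (by nlinarith)
      calc |B u - A| * Real.exp (-(ε * u)) ≤ |B u - A| * 1 :=
            mul_le_mul_of_nonneg_left h2 (abs_nonneg _)
        _ ≤ C + |A| := by rw [mul_one]; exact h.norm_le hu'.le
    · exact (((integrable_fej hl).comp_sub_left y).const_mul _).integrableOn
    · refine Eventually.of_forall fun u => ?_
      have hc : Continuous fun ε : ℝ =>
          (((B u - A) * Real.exp (-(ε * u)) * fej l (y - u) : ℝ) : ℂ) := by fun_prop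
      have := hc.tendsto 0
      simp only [zero_mul, neg_zero, Real.exp_zero, mul_one] at this
      exact this.mono_left nhdsWithin_le_nhds
  have h2 : Tendsto (fun ε : ℝ => ∫ t in (-l)..l,
      ((1 - |t| / l : ℝ) : ℂ) * cexp (I * t * y) * D (ε + I * t)) (𝓝[>] 0)
      (𝓝 (∫ t in (-l)..l, ((1 - |t| / l : ℝ) : ℂ) * cexp (I * t * y) * D (I * t))) := by
    obtain ⟨M, hM⟩ := h.bound l
    have hle : -l ≤ l := by linarith
    apply intervalIntegral.tendsto_integral_filter_of_dominated_convergence (fun _ => 1 * M)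
    · filter_upwards [self_mem_nhdsWithin] with ε hε
      have hε' : (0:ℝ) < ε := hε
      apply Continuous.aestronglyMeasurable
      apply Continuous.mul (by fun_prop)
      apply h.cont.comp_continuous (by fun_prop)
      intro t
      simpa using hε'.le
    · have hev : ∀ᶠ ε : ℝ in 𝓝[>] 0, ε ≤ 1 :=
        (eventually_le_nhds (show (0:ℝ) < 1 by norm_num)).filter_mono nhdsWithin_le_nhds
      filter_upwards [self_mem_nhdsWithin, hev] with ε hε hε1
      have hε' : (0:ℝ) < ε := hε
      refine Eventually.of_forall fun t ht => ?_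
      rw [uIoc_of_le hle] at ht
      have ht' : |t| ≤ l := abs_le.2 ⟨ht.1.le, ht.2⟩
      rw [norm_mul, norm_mul]
      have e1 : ‖cexp (I * t * y)‖ = 1 := by
        have : I * (t : ℂ) * (y : ℂ) = ((t * y : ℝ) : ℂ) * I := by push_cast; ring
        rw [this, Complex.norm_exp_ofReal_mul_I]
      rw [e1, mul_one, Complex.norm_real, Real.norm_eq_abs]
      apply mul_le_mul _ (hM ε t hε'.le hε1 ht') (norm_nonneg _) (by norm_num)
      have h4 : |t| / l ≤ 1 := (div_le_one hl).2 ht'
      have h5 : 0 ≤ |t| / l := by positivity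
      rw [abs_of_nonneg (by linarith)]
      linarith
    · exact intervalIntegrable_const
    · refine Eventually.of_forall fun t _ => ?_
      apply Tendsto.mul tendsto_const_nhds
      have hc : ContinuousWithinAt D {z : ℂ | 0 ≤ z.re} (I * t) := by
        apply h.cont
        simp
      have ht : Tendsto (fun ε : ℝ => (ε : ℂ) + I * t) (𝓝[>] 0)
          (𝓝[{z : ℂ | 0 ≤ z.re}] (I * t)) := by
        apply tendsto_nhdsWithin_of_tendsto_nhds_of_eventually_within
        · have hc' : Continuous fun ε : ℝ => (ε : ℂ) + I * t := by fun_prop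
          have := hc'.tendsto 0
          simp only [ofReal_zero, zero_add] at this
          exact this.mono_left nhdsWithin_le_nhds
        · filter_upwards [self_mem_nhdsWithin] with ε hε
          have hε' : (0:ℝ) < ε := hε
          simpa using hε'.le
      exact hc.tendsto.comp ht
  have heq : ∀ᶠ ε : ℝ in 𝓝[>] 0, ∫ u in Ioi (0:ℝ),
      (((B u - A) * Real.exp (-(ε * u)) * fej l (y - u) : ℝ) : ℂ) =
      ∫ t in (-l)..l, ((1 - |t| / l : ℝ) : ℂ) * cexp (I * t * y) * D (ε + I * t) := by
    filter_upwards [self_mem_nhdsWithin] with ε hε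
    exact h.fubini hε hl y
  exact tendsto_nhds_unique (h1.congr' heq) h2

/-- Step 3: the Riemann-Lebesgue lemma. -/
lemma TauberData.tendsto_zero (h : TauberData B C A D) {l : ℝ} (hl : 0 < l) :
    Tendsto (fun y : ℝ => ∫ u in Ioi (0:ℝ), (B u - A) * fej l (y - u)) atTop (𝓝 0) := by
  have hle : -l ≤ l := by linarith
  have h1 := Real.tendsto_integral_exp_smul_cocompact
    ((Ioc (-l) l).indicator fun t : ℝ => ((1 - |t| / l : ℝ) : ℂ) * D (I * t))
  have h2 : Tendsto (fun y : ℝ => -y / (2 * Real.pi)) atTop (cocompact ℝ) := by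
    have : Tendsto (fun y : ℝ => -y / (2 * Real.pi)) atTop atBot := by
      have h3 : Tendsto (fun y : ℝ => -y) atTop atBot := tendsto_neg_atTop_atBot
      exact h3.atBot_div_const (by positivity)
    exact this.mono_right atBot_le_cocompact
  have h3 := h1.comp h2
  have h4 : ∀ y : ℝ, ((fun w : ℝ => ∫ v : ℝ, (Real.fourierChar (-(v * w)) : Circle) •
      (Ioc (-l) l).indicator (fun t : ℝ => ((1 - |t| / l : ℝ) : ℂ) * D (I * t)) v) ∘
      (fun y : ℝ => -y / (2 * Real.pi))) y =
      ((∫ u in Ioi (0:ℝ), (B u - A) * fej l (y - u) : ℝ) : ℂ) := by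
    intro y
    have e0 : ((∫ u in Ioi (0:ℝ), (B u - A) * fej l (y - u) : ℝ) : ℂ) =
        ∫ u in Ioi (0:ℝ), (((B u - A) * fej l (y - u) : ℝ) : ℂ) :=
      (integral_ofReal (𝕜 := ℂ)).symm
    rw [e0, h.limit_eps hl y, intervalIntegral.integral_of_le hle,
      ← integral_indicator measurableSet_Ioc]
    apply integral_congr_ae
    refine Eventually.of_forall fun t => ?_
    simp only
    by_cases ht : t ∈ Ioc (-l) l
    · rw [indicator_of_mem ht, indicator_of_mem ht, Circle.smul_def, Real.fourierChar_apply]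
      have : (2 * Real.pi * -(t * (-y / (2 * Real.pi)))) = t * y := by
        field_simp
      rw [this, smul_eq_mul]
      have e : cexp (((t * y : ℝ) : ℂ) * I) = cexp (I * t * y) := by
        congr 1; push_cast; ring
      rw [e]
      ring
    · rw [indicator_of_notMem ht, indicator_of_notMem ht, smul_zero]
  have h5 : Tendsto (fun y : ℝ => ((∫ u in Ioi (0:ℝ), (B u - A) * fej l (y - u) : ℝ) : ℂ)) atTop
      (𝓝 0) := h3.congr h4
  have h6 := (Complex.continuous_re.tendsto 0).comp h5
  simpa [Function.comp_def] using h6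

lemma tendsto_fej_half {l : ℝ} (hl : 0 < l) :
    Tendsto (fun y : ℝ => ∫ u in Ioi (0:ℝ), fej l (y - u)) atTop (𝓝 fejMass) := by
  rw [← integral_fej hl]
  have h1 : ∀ y : ℝ, ∫ u in Ioi (0:ℝ), fej l (y - u) = ∫ v, (Iio y).indicator (fej l) v := by
    intro y
    rw [← integral_indicator measurableSet_Ioi,
      ← integral_sub_left_eq_self ((Iio y).indicator (fej l)) volume y]
    congr 1
    funext u
    by_cases hu : 0 < u
    · rw [indicator_of_mem (show u ∈ Ioi (0:ℝ) from hu),
        indicator_of_mem (show y - u ∈ Iio y by simpa using hu)]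
    · rw [indicator_of_notMem (show u ∉ Ioi (0:ℝ) from hu),
        indicator_of_notMem (show y - u ∉ Iio y by simpa using hu)]
  simp_rw [h1]
  apply tendsto_integral_filter_of_dominated_convergence (fej l)
  · exact Eventually.of_forall fun y =>
      ((measurable_fej l).indicator measurableSet_Iio).aestronglyMeasurable
  · refine Eventually.of_forall fun y => Eventually.of_forall fun v => ?_
    refine (norm_indicator_le_norm_self _ _).trans ?_
    rw [Real.norm_eq_abs, abs_of_nonneg (fej_nonneg hl v)]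
  · exact integrable_fej hl
  · refine Eventually.of_forall fun v => ?_
    apply tendsto_const_nhds.congr'
    filter_upwards [eventually_gt_atTop v] with y hy
    rw [indicator_of_mem (show v ∈ Iio y from hy)]

lemma TauberData.integrable_B_fej (h : TauberData B C A D) {l : ℝ} (hl : 0 < l) (y : ℝ) :
    IntegrableOn (fun u => B u * fej l (y - u)) (Ioi (0:ℝ)) := by
  have h1 : IntegrableOn (fun u => C * fej l (y - u)) (Ioi (0:ℝ)) :=
    (((integrable_fej hl).comp_sub_left y).const_mul _).integrableOn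
  refine h1.mono' ?_ ?_
  · exact (h.meas.mul ((measurable_fej l).comp
      (measurable_const.sub measurable_id))).aestronglyMeasurable
  · refine (ae_restrict_iff' measurableSet_Ioi).2 (Eventually.of_forall fun u hu => ?_)
    rw [norm_mul, Real.norm_eq_abs, Real.norm_eq_abs, abs_of_nonneg (h.nonneg u),
      abs_of_nonneg (fej_nonneg hl _)]
    exact mul_le_mul_of_nonneg_right (h.bdd u (le_of_lt hu)) (fej_nonneg hl _)

/-- Step 4: averages of `B` converge. -/
lemma TauberData.tendsto_avg (h : TauberData B C A D) {l : ℝ} (hl : 0 < l) :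
    Tendsto (fun y : ℝ => ∫ u in Ioi (0:ℝ), B u * fej l (y - u)) atTop (𝓝 (A * fejMass)) := by
  have h1 := (h.tendsto_zero hl).add ((tendsto_fej_half hl).const_mul A)
  rw [zero_add] at h1
  refine h1.congr fun y => ?_
  rw [← integral_const_mul, ← integral_add]
  · congr 1; funext u; ring
  · have := (h.integrable_B_fej hl y).sub
      ((((integrable_fej hl).comp_sub_left y).const_mul A).integrableOn (s := Ioi (0:ℝ)))
    refine this.congr (Eventually.of_forall fun u => ?_)
    simp only [Pi.sub_apply]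
    ring
  · exact (((integrable_fej hl).comp_sub_left y).const_mul A).integrableOn

lemma setIntegral_fej_Icc {l a : ℝ} (hl : 0 < l) :
    ∫ v in Icc (-a) a, fej l v = fejMass - ∫ v in (Icc (-a) a)ᶜ, fej l v := by
  rw [← integral_fej hl, ← integral_add_compl measurableSet_Icc (integrable_fej hl)]
  ring

lemma TauberData.upper (h : TauberData B C A D)
    (hslow : ∀ u v, 0 ≤ u → u ≤ v → B u * Real.exp (-(v - u)) ≤ B v)
    {l a y : ℝ} (hl : 0 < l) (hy : 0 < y) :
    B y * Real.exp (-(2 * a)) * (fejMass - ∫ v in (Icc (-a) a)ᶜ, fej l v) ≤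
      ∫ u in Ioi (0:ℝ), B u * fej l (y + a - u) := by
  rw [← setIntegral_fej_Icc hl, ← integral_indicator measurableSet_Icc,
    ← integral_sub_left_eq_self ((Icc (-a) a).indicator (fej l)) volume (y + a),
    ← integral_const_mul]
  have hsupp : ∫ u in Ioi (0:ℝ), B y * Real.exp (-(2 * a)) *
      (Icc (-a) a).indicator (fej l) (y + a - u) =
      ∫ u, B y * Real.exp (-(2 * a)) * (Icc (-a) a).indicator (fej l) (y + a - u) := by
    apply setIntegral_eq_integral_of_forall_compl_eq_zero
    intro u hu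
    have hu' : u ≤ 0 := not_lt.1 hu
    rw [indicator_of_notMem, mul_zero]
    intro hcon
    linarith [hcon.2]
  rw [← hsupp]
  apply setIntegral_mono_on _ (h.integrable_B_fej hl (y + a)) measurableSet_Ioi
  · intro u hu
    by_cases hu2 : y + a - u ∈ Icc (-a) a
    · rw [indicator_of_mem hu2]
      apply mul_le_mul_of_nonneg_right _ (fej_nonneg hl _)
      have h1 : y ≤ u := by linarith [hu2.2]
      have h2 : u - y ≤ 2 * a := by linarith [hu2.1]
      refine le_trans ?_ (hslow y u hy.le h1)
      apply mul_le_mul_of_nonneg_left _ (h.nonneg y)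
      apply Real.exp_le_exp.2
      linarith
    · rw [indicator_of_notMem hu2, mul_zero]
      exact mul_nonneg (h.nonneg u) (fej_nonneg hl _)
  · apply Integrable.integrableOn
    apply Integrable.const_mul
    exact ((integrable_fej hl).indicator measurableSet_Icc).comp_sub_left (y + a)

lemma TauberData.lower (h : TauberData B C A D)
    (hslow : ∀ u v, 0 ≤ u → u ≤ v → B u * Real.exp (-(v - u)) ≤ B v)
    {l a y : ℝ} (hl : 0 < l) :
    ∫ u in Ioi (0:ℝ), B u * fej l (y - a - u) ≤
      B y * Real.exp (2 * a) * fejMass + C * ∫ v in (Icc (-a) a)ᶜ, fej l v := by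
  have hC : 0 ≤ C := (h.nonneg 0).trans (h.bdd 0 le_rfl)
  rw [← integral_indicator measurableSet_Icc.compl, ← integral_fej hl,
    ← integral_sub_left_eq_self (fej l) volume (y - a),
    ← integral_sub_left_eq_self (((Icc (-a) a)ᶜ).indicator (fej l)) volume (y - a),
    ← integral_const_mul, ← integral_const_mul, ← integral_add]
  · have hint : Integrable fun u => B y * Real.exp (2 * a) * fej l (y - a - u) +
        C * ((Icc (-a) a)ᶜ).indicator (fej l) (y - a - u) := by
      apply Integrable.add
      · exact ((integrable_fej hl).comp_sub_left (y - a)).const_mul _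
      · exact (((integrable_fej hl).indicator measurableSet_Icc.compl).comp_sub_left
          (y - a)).const_mul _
    have hnn : ∀ u, 0 ≤ B y * Real.exp (2 * a) * fej l (y - a - u) +
        C * ((Icc (-a) a)ᶜ).indicator (fej l) (y - a - u) := by
      intro u
      apply add_nonneg
      · exact mul_nonneg (mul_nonneg (h.nonneg y) (Real.exp_pos _).le) (fej_nonneg hl _)
      · exact mul_nonneg hC (indicator_nonneg (fun v _ => fej_nonneg hl v) _)
    refine le_trans ?_ (setIntegral_le_integral hint (Eventually.of_forall hnn) (s := Ioi (0:ℝ)))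
    apply setIntegral_mono_on (h.integrable_B_fej hl (y - a)) hint.integrableOn measurableSet_Ioi
    intro u hu
    have hu' : (0:ℝ) < u := hu
    by_cases hu2 : y - a - u ∈ Icc (-a) a
    · rw [indicator_of_notMem (show y - a - u ∉ (Icc (-a) a)ᶜ from fun hcon => hcon hu2),
        mul_zero, add_zero]
      apply mul_le_mul_of_nonneg_right _ (fej_nonneg hl _)
      have h1 : u ≤ y := by linarith [hu2.1]
      have h2 : y - u ≤ 2 * a := by linarith [hu2.2]
      have h3 := hslow u y hu'.le h1
      have h4 : B u = B u * Real.exp (-(y - u)) * Real.exp (y - u) := by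
        rw [mul_assoc, ← Real.exp_add]; simp
      rw [h4]
      apply mul_le_mul h3 (Real.exp_le_exp.2 h2) (Real.exp_pos _).le (h.nonneg y)
    · rw [indicator_of_mem (show y - a - u ∈ (Icc (-a) a)ᶜ from hu2)]
      have h5 : B u * fej l (y - a - u) ≤ C * fej l (y - a - u) :=
        mul_le_mul_of_nonneg_right (h.bdd u hu'.le) (fej_nonneg hl _)
      have h6 : 0 ≤ B y * Real.exp (2 * a) * fej l (y - a - u) :=
        mul_nonneg (mul_nonneg (h.nonneg y) (Real.exp_pos _).le) (fej_nonneg hl _)
      linarith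
  · exact ((integrable_fej hl).comp_sub_left (y - a)).const_mul _
  · exact (((integrable_fej hl).indicator measurableSet_Icc.compl).comp_sub_left
      (y - a)).const_mul _

lemma TauberData.eventually_bounds (h : TauberData B C A D)
    (hslow : ∀ u v, 0 ≤ u → u ≤ v → B u * Real.exp (-(v - u)) ≤ B v)
    {η : ℝ} (h0 : 0 < η) (h1 : η < 1) :
    ∀ᶠ y in atTop, (A - η - C * η) / (1 + η) ≤ B y ∧ B y ≤ (1 + η) * (A + η) / (1 - η) := by
  have hC : 0 ≤ C := (h.nonneg 0).trans (h.bdd 0 le_rfl)
  have hc := fejMass_pos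
  set a := Real.log (1 + η) / 2 with ha
  have ha0 : 0 < a := by
    have := Real.log_pos (show (1:ℝ) < 1 + η by linarith)
    positivity
  have hexp : Real.exp (2 * a) = 1 + η := by
    rw [ha, mul_div_cancel₀ _ (two_ne_zero), Real.exp_log (by linarith)]
  have hexp' : Real.exp (-(2 * a)) = (1 + η)⁻¹ := by rw [Real.exp_neg, hexp]
  have htail := tendsto_fej_tail ha0
  have hev : ∀ᶠ l : ℝ in atTop, ∫ v in (Icc (-a) a)ᶜ, fej l v < η * fejMass :=
    htail.eventually (gt_mem_nhds (by positivity))
  obtain ⟨l, hl1, hl0⟩ := (hev.and (eventually_gt_atTop 0)).exists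
  have havg := h.tendsto_avg hl0
  have hA1 : Tendsto (fun y : ℝ => ∫ u in Ioi (0:ℝ), B u * fej l (y + a - u)) atTop
      (𝓝 (A * fejMass)) := havg.comp (tendsto_atTop_add_const_right _ a tendsto_id)
  have hA2 : Tendsto (fun y : ℝ => ∫ u in Ioi (0:ℝ), B u * fej l (y - a - u)) atTop
      (𝓝 (A * fejMass)) := havg.comp (tendsto_atTop_add_const_right _ (-a) tendsto_id)
  have hB1 : ∀ᶠ y : ℝ in atTop, ∫ u in Ioi (0:ℝ), B u * fej l (y + a - u) <
      (A + η) * fejMass := hA1.eventually (gt_mem_nhds (by nlinarith))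
  have hB2 : ∀ᶠ y : ℝ in atTop, (A - η) * fejMass <
      ∫ u in Ioi (0:ℝ), B u * fej l (y - a - u) := hA2.eventually (lt_mem_nhds (by nlinarith))
  filter_upwards [hB1, hB2, eventually_gt_atTop 0] with y hy1 hy2 hy0
  have hu := h.upper hslow (a := a) hl0 hy0
  have hlo := h.lower hslow (a := a) (y := y) hl0
  rw [hexp'] at hu
  rw [hexp] at hlo
  have hBy := h.nonneg y
  constructor
  · rw [div_le_iff₀ (by linarith)]
    have h2 : C * ∫ v in (Icc (-a) a)ᶜ, fej l v ≤ C * (η * fejMass) :=
      mul_le_mul_of_nonneg_left hl1.le hC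
    have h3 : (A - η) * fejMass ≤ B y * (1 + η) * fejMass + C * (η * fejMass) := by linarith
    have h4 : (A - η - C * η) * fejMass ≤ (B y * (1 + η)) * fejMass := by linarith
    exact le_of_mul_le_mul_right h4 hc
  · rw [le_div_iff₀ (by linarith)]
    have h2 : B y * (1 + η)⁻¹ * (fejMass - η * fejMass) ≤
        B y * (1 + η)⁻¹ * (fejMass - ∫ v in (Icc (-a) a)ᶜ, fej l v) := by
      apply mul_le_mul_of_nonneg_left (by linarith)
      have : 0 < 1 + η := by linarith
      positivity
    have h3 : B y * (1 + η)⁻¹ * (fejMass - η * fejMass) ≤ (A + η) * fejMass := by linarith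
    have h4 : B y * (1 + η)⁻¹ * (fejMass - η * fejMass) =
        (B y * (1 - η) * (1 + η)⁻¹) * fejMass := by ring
    rw [h4] at h3
    have h5 := le_of_mul_le_mul_right h3 hc
    rw [← div_eq_mul_inv, div_le_iff₀ (by linarith)] at h5
    linarith

/-- The Tauberian theorem. -/
theorem TauberData.tendsto (h : TauberData B C A D)
    (hslow : ∀ u v, 0 ≤ u → u ≤ v → B u * Real.exp (-(v - u)) ≤ B v) :
    Tendsto B atTop (𝓝 A) := by
  have hlo : Tendsto (fun η : ℝ => (A - η - C * η) / (1 + η)) (𝓝[>] 0) (𝓝 A) := by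
    have hc : ContinuousAt (fun η : ℝ => (A - η - C * η) / (1 + η)) 0 := by
      apply ContinuousAt.div <;> [fun_prop; fun_prop; norm_num]
    have := hc.tendsto
    simp only [mul_zero, sub_zero, add_zero, div_one] at this
    exact this.mono_left nhdsWithin_le_nhds
  have hup : Tendsto (fun η : ℝ => (1 + η) * (A + η) / (1 - η)) (𝓝[>] 0) (𝓝 A) := by
    have hc : ContinuousAt (fun η : ℝ => (1 + η) * (A + η) / (1 - η)) 0 := by
      apply ContinuousAt.div <;> [fun_prop; fun_prop; norm_num]
    have := hc.tendsto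
    simp only [add_zero, sub_zero, one_mul, div_one] at this
    exact this.mono_left nhdsWithin_le_nhds
  have hmem : ∀ᶠ η : ℝ in 𝓝[>] 0, 0 < η ∧ η < 1 := by
    have h1 : ∀ᶠ η : ℝ in 𝓝[>] 0, η < 1 :=
      (gt_mem_nhds (show (0:ℝ) < 1 by norm_num)).filter_mono nhdsWithin_le_nhds
    filter_upwards [self_mem_nhdsWithin, h1] with η h2 h3
    exact ⟨h2, h3⟩
  rw [tendsto_order]
  constructor
  · intro A' hA'
    obtain ⟨η, h1, h2, h3⟩ := ((hlo.eventually (lt_mem_nhds hA')).and hmem).exists
    filter_upwards [h.eventually_bounds hslow h2 h3] with y hy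
    exact lt_of_lt_of_le h1 hy.1
  · intro A' hA'
    obtain ⟨η, h1, h2, h3⟩ := ((hup.eventually (gt_mem_nhds hA')).and hmem).exists
    filter_upwards [h.eventually_bounds hslow h2 h3] with y hy
    exact lt_of_le_of_lt hy.2 h1

end

end Pool.Agent.Lib_helper90.PNT
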